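import Pool.Agent.H33.NS.Bas

/-!
Leaves: nesting, closure properties, compactness (problem MP_90715c_gt, NoSeparation, section 2).
-/

open Matrix Set Filter Topology MeasureTheory

namespace Pool.Agent.H81.NS

open Pool.Agent.H90.WC Pool.Agent.H81.TG B

variable {Γ : Subgroup G} {U : Set (OnePoint ℂ)}

/-! ### Walls -/

theorem lf_wall_meas (hU : IsOpen U) (f : G) (b : Bool) : MeasurableSet (Wl U f b) := by
  unfold Wl
  cases b
  · exact (meas_mv f hU.measurableSet).compl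
  · exact meas_mv f hU.measurableSet

theorem lf_mv_wall (g f : G) (b : Bool) : mv g (Wl U f b) = Wl U (g * f) b := by
  unfold Wl
  cases b
  · show mv g (mv f U)ᶜ = (mv (g * f) U)ᶜ
    rw [mv_mul]
    rfl
  · show mv g (mv f U) = mv (g * f) U
    rw [mv_mul]

theorem lf_wall_compl (f : G) (b : Bool) : Wl U f (!b) = (Wl U f b)ᶜ := by
  unfold Wl
  cases b <;> simp

/-! ### Inclusion and distance -/

/-- The measure of the difference of sets close to nested ones. -/
theorem lf_close (T : Tool) {X Y W V : Set (OnePoint ℂ)} (h : Sub W V) :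
    lam 1 (X \ Y) ≤ ds X W + ds Y V := by
  have h1 := lam_diff_tri T 1 X W Y
  have h2 := lam_diff_tri T 1 W V Y
  have h3 := lam_diff_le_sd T 1 X W
  have h4 := lam_diff_le_sd' T 1 Y V
  unfold Sub at h
  unfold ds
  linarith

/-- Nestedness is a closed condition. -/
theorem nst_closed (T : Tool) {X Y : Set (OnePoint ℂ)}
    (h : ∀ ε > (0 : ℝ), ∃ W V, Nst W V ∧ ds X W < ε ∧ ds Y V < ε) : Nst X Y := by
  by_contra hn
  unfold Nst at hn
  rw [not_or, not_or, not_or] at hn
  obtain ⟨n1, n2, n3, n4⟩ := hn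
  have pos : ∀ {A B : Set (OnePoint ℂ)}, ¬ Sub A B → 0 < lam 1 (A \ B) := by
    intro A B hAB
    exact lt_of_le_of_ne (lam_nonneg _ _) (Ne.symm hAB)
  have p1 := pos n1
  have p2 := pos n2
  have p3 := pos n3
  have p4 := pos n4
  obtain ⟨W, V, hWV, hX, hY⟩ := h
    (min (min (lam 1 (X \ Y)) (lam 1 (Y \ X))) (min (lam 1 (X \ Yᶜ)) (lam 1 (Xᶜ \ Y))) / 2)
    (by positivity)
  have m1 := min_le_left (min (lam 1 (X \ Y)) (lam 1 (Y \ X)))
    (min (lam 1 (X \ Yᶜ)) (lam 1 (Xᶜ \ Y)))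
  have m2 := min_le_right (min (lam 1 (X \ Y)) (lam 1 (Y \ X)))
    (min (lam 1 (X \ Yᶜ)) (lam 1 (Xᶜ \ Y)))
  have m3 := min_le_left (lam 1 (X \ Y)) (lam 1 (Y \ X))
  have m4 := min_le_right (lam 1 (X \ Y)) (lam 1 (Y \ X))
  have m5 := min_le_left (lam 1 (X \ Yᶜ)) (lam 1 (Xᶜ \ Y))
  have m6 := min_le_right (lam 1 (X \ Yᶜ)) (lam 1 (Xᶜ \ Y))
  rcases hWV with h | h | h | h
  · have := lf_close T (X := X) (Y := Y) h
    linarith
  · have := lf_close T (X := Y) (Y := X) h
    linarith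
  · have := lf_close T (X := X) (Y := Yᶜ) h
    rw [ds_compl] at this
    linarith
  · have := lf_close T (X := Xᶜ) (Y := Y) h
    rw [ds_compl] at this
    linarith

/-! ### Closure properties of the leaves -/

/-- Nontrivial limits of leaves are leaves. -/
theorem lf_lim (T : Tool) {X : Set (OnePoint ℂ)} (mX : MeasurableSet X) (h1 : 0 < lam 1 X)
    (h2 : 0 < lam 1 Xᶜ) (h : ∀ ε > (0 : ℝ), ∃ Y, Lf Γ U Y ∧ ds X Y < ε) : Lf Γ U X := by
  refine ⟨mX, h1, h2, fun ε hε => ?_⟩
  obtain ⟨Y, hY, hd⟩ := h (ε / 2) (by linarith)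
  obtain ⟨f, hf, b, hb⟩ := hY.lim (ε / 2) (by linarith)
  refine ⟨f, hf, b, ?_⟩
  have := ds_tri T X Y (Wl U f b)
  linarith

theorem lf_compl {X : Set (OnePoint ℂ)} (hX : Lf Γ U X) : Lf Γ U Xᶜ := by
  refine ⟨hX.meas.compl, hX.cpos, by rw [compl_compl]; exact hX.pos, fun ε hε => ?_⟩
  obtain ⟨f, hf, b, hb⟩ := hX.lim ε hε
  refine ⟨f, hf, !b, ?_⟩
  rw [lf_wall_compl, ds_compl]
  exact hb

theorem lf_mv (T : Tool) (hU : IsOpen U) {X : Set (OnePoint ℂ)} (hX : Lf Γ U X) {g : G}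
    (hg : g ∈ Γ) : Lf Γ U (mv g X) := by
  refine ⟨meas_mv g hX.meas, ?_, ?_, fun ε hε => ?_⟩
  · rw [lam_one_mv]
    exact (lam_pos_iff T _ hX.meas).2 hX.pos
  · rw [← mv_compl, lam_one_mv]
    exact (lam_pos_iff T _ hX.meas.compl).2 hX.cpos
  · obtain ⟨c, hc1, hc⟩ := ds_mv_le T g
    obtain ⟨f, hf, b, hb⟩ := hX.lim (ε / c) (by positivity)
    refine ⟨g * f, Γ.mul_mem hg hf, b, ?_⟩
    rw [← lf_mv_wall]
    refine (hc X _ hX.meas (lf_wall_meas hU f b)).trans_lt ?_
    rw [lt_div_iff₀ (by linarith)] at hb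
    linarith

/-- Walls of the group are leaves when they have positive measures. -/
theorem lf_wall (hU : IsOpen U) {f : G} (hf : f ∈ Γ) (b : Bool) (h1 : 0 < lam 1 (Wl U f b))
    (h2 : 0 < lam 1 (Wl U f b)ᶜ) : Lf Γ U (Wl U f b) :=
  ⟨lf_wall_meas hU f b, h1, h2, fun ε hε => ⟨f, hf, b, by rw [ds_self]; exact hε⟩⟩

/-- Any two leaves are nested, if the walls are. -/
theorem lf_nst (T : Tool)
    (hW : ∀ f ∈ Γ, ∀ f' ∈ Γ, ∀ b b' : Bool, Nst (Wl U f b) (Wl U f' b'))
    (X Y : Set (OnePoint ℂ)) (hX : Lf Γ U X) (hY : Lf Γ U Y) : Nst X Y := by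
  refine nst_closed T fun ε hε => ?_
  obtain ⟨f, hf, b, hb⟩ := hX.lim ε hε
  obtain ⟨f', hf', b', hb'⟩ := hY.lim ε hε
  exact ⟨_, _, hW f hf f' hf' b b', hb, hb'⟩

/-! ### Compactness -/

/-- The limit of an increasing sequence. -/
theorem lf_mono_lim (T : Tool) {X : ℕ → Set (OnePoint ℂ)} (mX : ∀ n, MeasurableSet (X n))
    (h : ∀ m n, m < n → Sub (X m) (X n)) :
    Tendsto (fun n => ds (X n) (⋃ i, X i)) atTop (𝓝 0) := by
  have hp := prob T
  have hmu : ∀ Z : Set (OnePoint ℂ), lam 1 Z = (mu Z).toReal := by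
    intro Z
    unfold lam
    congr 2
    ext x
    rw [mem_preimage, act_one]
  have e0 : ∀ n, lam 1 (accumulate X n \ X n) = 0 := by
    intro n
    have : ∀ m ≤ n, mu (X m \ X n) = 0 := by
      intro m hm
      rcases hm.lt_or_eq with hm | rfl
      · have h1 := h m n hm
        unfold Sub at h1
        rw [hmu, ENNReal.toReal_eq_zero_iff] at h1
        exact h1.resolve_right (measure_ne_top _ _)
      · rw [diff_self, measure_empty]
    rw [hmu]
    have h2 : mu (accumulate X n \ X n) = 0 := by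
      have : accumulate X n \ X n = ⋃ m ∈ {m | m ≤ n}, (X m \ X n) := by
        ext x
        simp only [accumulate_def, mem_diff, mem_iUnion, mem_setOf_eq, exists_prop]
        constructor
        · rintro ⟨⟨m, hm, hx⟩, hn⟩
          exact ⟨m, hm, hx, hn⟩
        · rintro ⟨m, hm, hx, hn⟩
          exact ⟨⟨m, hm, hx⟩, hn⟩
      rw [this]
      refine (measure_biUnion_null_iff (to_countable _)).2 fun m hm => ?_
      solve_by_elim
    rw [h2]
    rfl
  have e1 : ∀ n, lam 1 (accumulate X n) = lam 1 (X n) := by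
    intro n
    have h1 := lam_inter_add_diff T 1 (accumulate X n) (mX n)
    rw [e0, add_zero] at h1
    rw [← h1]
    congr 1
    exact inter_eq_right.2 (subset_accumulate)
  have e2 : Tendsto (fun n => lam 1 (X n)) atTop (𝓝 (lam 1 (⋃ i, X i))) := by
    have h1 := tendsto_measure_iUnion_accumulate (μ := mu) (f := X)
    have h2 := (ENNReal.tendsto_toReal (measure_ne_top mu (⋃ i, X i))).comp h1
    rw [← hmu] at h2
    refine h2.congr fun n => ?_
    show (mu (accumulate X n)).toReal = _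
    rw [← hmu, e1]
  have e3 : ∀ n, ds (X n) (⋃ i, X i) = lam 1 (⋃ i, X i) - lam 1 (X n) := by
    intro n
    unfold ds
    have : symmDiff (X n) (⋃ i, X i) = (⋃ i, X i) \ X n := by
      rw [symmDiff_def]
      have h0 : X n \ (⋃ i, X i) = ∅ := diff_eq_empty.2 (subset_iUnion X n)
      show X n \ (⋃ i, X i) ∪ (⋃ i, X i) \ X n = _
      rw [h0, empty_union]
    rw [this, lam_diff T 1 (mX n) (subset_iUnion X n)]
  have e4 := (tendsto_const_nhds (x := lam 1 (⋃ i, X i))).sub e2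
  rw [sub_self] at e4
  exact e4.congr fun n => (e3 n).symm

/-- Infinitely many sets cannot be pairwise disjoint or co-disjoint. -/
theorem lf_no_antichain (T : Tool) {c : ℝ} (hc : 0 < c) {X : ℕ → Set (OnePoint ℂ)}
    (mX : ∀ n, MeasurableSet (X n)) (h1 : ∀ n, c ≤ lam 1 (X n)) (h2 : ∀ n, c ≤ lam 1 (X n)ᶜ)
    (h : ∀ m n, m < n → Sub (X m) (X n)ᶜ ∨ Sub (X m)ᶜ (X n)) : False := by
  classical
  have hp := prob T
  have hmu : ∀ Z : Set (OnePoint ℂ), lam 1 Z = (mu Z).toReal := by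
    intro Z
    unfold lam
    congr 2
    ext x
    rw [mem_preimage, act_one]
  have np : ∀ {A B : Set (OnePoint ℂ)}, Sub A B → c ≤ lam 1 A → Sub A Bᶜ → False := by
    intro A B hA hcA hB
    have e := lam_le_add_diff T 1 A (A ∩ B)
    have e1 : lam 1 (A \ (A ∩ B)) = 0 := by
      have : A \ (A ∩ B) = A \ B := by ext x; simp
      rw [this]
      exact hA
    have e2 : lam 1 (A ∩ B) = 0 := by
      have : A \ Bᶜ = A ∩ B := by rw [diff_compl]
      rw [← this]
      exact hB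
    linarith
  -- the oriented sets
  let Z : ℕ → Set (OnePoint ℂ) := fun n =>
    if Sub (X 0) (X (n + 1))ᶜ then X (n + 1) else (X (n + 1))ᶜ
  have mZ : ∀ n, MeasurableSet (Z n) := by
    intro n
    show MeasurableSet (if _ then _ else _)
    split_ifs
    · exact mX _
    · exact (mX _).compl
  have cZ : ∀ n, c ≤ lam 1 (Z n) := by
    intro n
    show c ≤ lam 1 (if _ then _ else _)
    split_ifs
    · exact h1 _
    · exact h2 _
  have dZ : ∀ m n, m < n → Sub (Z m) (Z n)ᶜ := by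
    intro m n hmn
    have hmn' := h (m + 1) (n + 1) (by omega)
    show Sub (if _ then _ else _) (if _ then _ else _)ᶜ
    by_cases am : Sub (X 0) (X (m + 1))ᶜ
    · by_cases an : Sub (X 0) (X (n + 1))ᶜ
      · rw [if_pos am, if_pos an]
        refine hmn'.resolve_right fun hco => ?_
        exact np (sub_trans T am hco) (h1 0) an
      · rw [if_pos am, if_neg an, compl_compl]
        have bn := (h 0 (n + 1) (by omega)).resolve_left an
        exact sub_trans T (sub_compl_right.1 am) bn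
    · have bm := (h 0 (m + 1) (by omega)).resolve_left am
      by_cases an : Sub (X 0) (X (n + 1))ᶜ
      · rw [if_neg am, if_pos an]
        exact sub_trans T (sub_compl_left.1 bm) an
      · rw [if_neg am, if_neg an, compl_compl]
        have bn := (h 0 (n + 1) (by omega)).resolve_left an
        refine hmn'.resolve_left fun hdi => ?_
        have b2 := sub_trans T (sub_trans T bm hdi) (sub_compl_left.1 bn)
        exact np (sub_refl _) (h2 0) (by rw [compl_compl]; exact b2)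
  have hfin := Measure.finite_const_le_meas_of_disjoint_iUnion₀ mu (ε := ENNReal.ofReal c)
    (ENNReal.ofReal_pos.2 hc) (As := Z) (fun n => (mZ n).nullMeasurableSet) (by
      intro m n hmn
      have key : ∀ m n, m < n → mu (Z m ∩ Z n) = 0 := by
        intro m n hmn
        have h3 := dZ m n hmn
        rw [sub_compl_right_iff, hmu, ENNReal.toReal_eq_zero_iff] at h3
        exact h3.resolve_right (measure_ne_top _ _)
      rcases lt_or_gt_of_ne hmn with h4 | h4
      · exact key m n h4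
      · show mu (Z m ∩ Z n) = 0
        rw [inter_comm]
        exact key n m h4) (measure_ne_top _ _)
  have huniv : {i | ENNReal.ofReal c ≤ mu (Z i)} = univ := by
    refine eq_univ_of_forall fun n => ?_
    show ENNReal.ofReal c ≤ mu (Z n)
    rw [ENNReal.ofReal_le_iff_le_toReal (measure_ne_top _ _), ← hmu]
    exact cZ n
  rw [huniv] at hfin
  exact infinite_univ hfin

/-- Leaves with measure and co-measure bounded below are a compact family. -/
theorem lf_compact (T : Tool)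
    (hN : ∀ X Y, Lf Γ U X → Lf Γ U Y → Nst X Y) :
    ∀ c > (0 : ℝ), ∀ X : ℕ → Set (OnePoint ℂ), (∀ n, Lf Γ U (X n)) →
      (∀ n, c ≤ lam 1 (X n)) → (∀ n, c ≤ lam 1 (X n)ᶜ) →
      ∃ Y, Lf Γ U Y ∧ ∃ φ : ℕ → ℕ, StrictMono φ ∧
        Tendsto (fun n => ds (X (φ n)) Y) atTop (𝓝 0) := by
  intro c hc X hX h1 h2
  -- increasing case
  have inc : ∀ (X : ℕ → Set (OnePoint ℂ)), (∀ n, Lf Γ U (X n)) → (∀ n, c ≤ lam 1 (X n)) →
      (∀ n, c ≤ lam 1 (X n)ᶜ) → (∀ m n, m < n → Sub (X m) (X n)) →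
      ∃ Y, Lf Γ U Y ∧ Tendsto (fun n => ds (X n) Y) atTop (𝓝 0) := by
    intro X hX h1 h2 hi
    have ht := lf_mono_lim T (fun n => (hX n).meas) hi
    have mY : MeasurableSet (⋃ i, X i) := MeasurableSet.iUnion fun n => (hX n).meas
    refine ⟨⋃ i, X i, lf_lim T mY ?_ ?_ ?_, ht⟩
    · exact (hX 0).pos.trans_le (lam_mono T 1 (subset_iUnion X 0))
    · obtain ⟨n, hn⟩ := (ht.eventually (gt_mem_nhds (show (0 : ℝ) < c by linarith))).exists
      have h3 := lam_le_sd T 1 (X n)ᶜ (⋃ i, X i)ᶜ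
      rw [sd_compl] at h3
      have h4 := h2 n
      unfold ds at hn
      linarith
    · intro ε hε
      obtain ⟨n, hn⟩ := (ht.eventually (gt_mem_nhds hε)).exists
      exact ⟨X n, hX n, by rw [ds_comm]; exact hn⟩
  have tr1 : IsTrans (Set (OnePoint ℂ)) Sub := ⟨fun _ _ _ => sub_trans T⟩
  have tr2 : IsTrans (Set (OnePoint ℂ)) (fun X Y => Sub Y X) :=
    ⟨fun _ _ _ h h' => sub_trans T h' h⟩
  obtain ⟨φ, hφ | hφ⟩ := exists_increasing_or_nonincreasing_subseq Sub X
  · obtain ⟨Y, hY, ht⟩ := inc (fun n => X (φ n)) (fun n => hX _) (fun n => h1 _) (fun n => h2 _) hφ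
    exact ⟨Y, hY, φ, φ.strictMono, ht⟩
  obtain ⟨ψ, hψ | hψ⟩ := exists_increasing_or_nonincreasing_subseq (fun X Y => Sub Y X)
    (fun n => X (φ n))
  · obtain ⟨Y, hY, ht⟩ := inc (fun n => (X (φ (ψ n)))ᶜ) (fun n => lf_compl (hX _))
      (fun n => h2 _) (fun n => by rw [compl_compl]; exact h1 _)
      (fun m n hmn => sub_compl.2 (hψ m n hmn))
    refine ⟨Yᶜ, lf_compl hY, fun n => φ (ψ n), φ.strictMono.comp ψ.strictMono, ?_⟩
    refine ht.congr fun n => ?_
    rw [ds_compl_left]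
  · exfalso
    refine lf_no_antichain T hc (X := fun n => X (φ (ψ n))) (fun n => (hX _).meas)
      (fun n => h1 _) (fun n => h2 _) fun m n hmn => ?_
    have n1 := hφ (ψ m) (ψ n) (ψ.strictMono hmn)
    have n2 := hψ m n hmn
    have := hN _ _ (hX (φ (ψ m))) (hX (φ (ψ n)))
    unfold Nst at this
    tauto

end Pool.Agent.H81.NS
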